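import Pool.Agent.U385.FJ.Iso

/-!
# Graphs of groups with isolated nilpotent edge groups and the Farrell-Jones conjecture

`C` is any class of groups with the closure properties `ClosedE C` which contains the metabelian groups
and satisfies `AcylF C`: a finitely generated group that acts on a tree without inversions, such that
for some `k` and `n` the pointwise stabilizers of the paths of length at least `k` have at most `n`
elements, is in `C` if the vertex stabilizers are in `C`. All this is known for the class of the groups
whose wreath products with finite groups satisfy the K- and L-theoretic Farrell-Jones conjecture with
coefficients (`AcylF` is a theorem of Knopf).

Let `G` act on a tree such that the infinite stabilizers of edges are nilpotent, and two edge groups at a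
vertex are infinite and commensurable, or infinite cyclic, or their intersection has at most `n` elements.
Assume that each vertex group `G_v` is torsion-free and locally nilpotent, or has the following
properties: it is in `C`, and for each infinite edge group `E` at `v` the subgroup `R` of `G_v` generated
by the roots of the nontrivial elements of `E` has unique roots (`x ^ m = y ^ m` with `m > 0` implies
`x = y`; for instance it is torsion-free nilpotent or bi-ordered), and the commensurator of `E` in
`G_v` modulo `R` is in `C`. Then `G` is in `C`. There are no conditions on the inclusions of
the edge groups in the vertex groups, on the graph, or on finite generation.

So every group which acts on a tree with torsion-free locally nilpotent vertex groups and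
cyclic edge groups is in `C` (and satisfies the conjecture for regular rings, since it is
torsion-free). Other examples of vertex groups with cyclic edge groups are the torsion-free groups which
are hyperbolic relative to nilpotent groups.

The theorem is complementary to the theorem on isolated edge groups in the starting library, in
which no nontrivial element of `E` may be in the commutator subgroup of its centralizer in `G_v`; for
nilpotent vertex groups this condition is often violated, for instance if `E` is the centre of a
Heisenberg group.

Outline of the proof. Two edges at a vertex are equivalent if their stabilizers are infinite and
commensurable; by the theorem on cylinders and `AcylF` only the groups `K` which preserve a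
cylinder have to be considered. Let `R v` be the subgroup of `G_v` generated by the roots of
the elements of the edge groups of the cylinder at `v`. Since roots are unique in `R v` and all its
quotients by the terms of the upper central series, `R v` is nilpotent and the `i`-th centre of `R v`
meets each edge group `E` of the cylinder in the `i`-th centre of `E`. So the upper central series of the
groups `R v` form a compatible series of subgroups of the vertex groups for the action of `K` on
the cylinder (see `CompatibleSeries` in `MP_6374fb_al`), and the groups `(G_v ∩ K) / R v` are in `C`.
-/

set_option autoImplicit false

namespace Pool.Agent.Results.MP_c052b4_al.IsolatedNilpotentEdges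

open Pool.Agent.Y110.FJ (ClosedE)
open Pool.Agent.N509.TX (AcylF)
open Pool.Agent.N431.CE (Es)
open Pool.Agent.U385.FJ (VC)

/-- Let `C` be a class of groups with `ClosedE C` and `AcylF C` which contains the metabelian groups. Let
`G` act on a tree such that the infinite edge groups are nilpotent, and two edge groups at a vertex are
infinite and commensurable, or infinite cyclic, or have an intersection of order at most `n`; each
vertex group is torsion-free and locally nilpotent, or it is in `C`, and for the infinite edge groups `E`
at `v` the subgroup generated by the roots of the nontrivial elements of `E` has unique roots, and the
commensurator of `E` modulo this subgroup is in `C`. Then `G` is in `C`. -/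
theorem result (C : ∀ (G : Type) [Group G], Prop) (hC : ClosedE C)
    (hM : ∀ (G : Type) [Group G], derivedSeries G 2 = ⊥ → C G) (hA : AcylF C)
    {G V : Type} [Group G] [MulAction G V] (T : SimpleGraph V) (hT : T.IsTree)
    (hact : ∀ (g : G) (u v : V), T.Adj u v → T.Adj (g • u) (g • v))
    (hV : ∀ v : V, VC C G T v) (n : ℕ)
    (hN : ∀ v u : V, T.Adj v u → Infinite (Es G v u) → Group.IsNilpotent (Es G v u))
    (hint : ∀ v a b, T.Adj v a → T.Adj v b → a ≠ b →
      (Infinite (Es G v a) ∧ Infinite (Es G v b) ∧
        (Subgroup.Commensurable (Es G v a) (Es G v b) ∨
          IsCyclic (Es G v a) ∧ IsCyclic (Es G v b))) ∨
      ∀ F : Finset G, (∀ g ∈ F, g ∈ Es G v a ∧ g ∈ Es G v b) → F.card ≤ n) : C G :=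
  Pool.Agent.U385.FJ.iso_main hC hM hA hT hact hV n hN hint

end Pool.Agent.Results.MP_c052b4_al.IsolatedNilpotentEdges
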