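import Pool.Agent.U709.RmH

/-!
# Edge groups which are malnormal relative to a subgroup, at one end

`C` is a class of groups with the closure properties `ClosedE C` (it contains `ℤ`, is closed under
subgroups, finite products, free products, overgroups of finite index and directed colimits, and a group
`G` with a homomorphism onto a group `Q` in `C` is in `C` if the preimages of the virtually cyclic
subgroups of `Q` are in `C`), which satisfies `AcylF C` (finitely generated groups with an acylindrical
action on a tree with stabilizers in `C` are in `C`). All this is known for the class of the groups whose
wreath products with finite groups satisfy the K-theoretic (and L-theoretic) Farrell-Jones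
conjecture with coefficients (Bartels, Lück, Reich, Wegner, Knopf). If a torsion-free group is in this
class, then its assembly map is an isomorphism for every regular ring.

The edge groups here are arbitrary groups in `C`. (For torsion-free groups and cyclic edge groups, the
assembly map of an amalgamated product or HNN extension can be treated with the theorem of Waldhausen;
for general edge groups its Nil-terms do not vanish for known reasons.) All conditions are conditions
on the embeddings of the edge groups at *one* end of the edges; the vertex groups at the other ends are
arbitrary groups in `C`, and the embeddings of the edge groups in them are arbitrary, too.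

Let `E ≤ M` be subgroups of a group. `E` is *visible* in `M` if there is a homomorphism `f` on `M` which is
injective on `E`, such that `f(M)` is generated by `f(E)` and elements which commute with `f(E)`, and
`f(M) / f(E)` embeds in a group in `C` (`GenVis C E M`). Examples: `E = M`; `E` is a direct factor of `M`,
and `M / E` is in `C`; `M` is abelian; `E` is central in `M`, and `M / E` is in `C`;
`E` meets the commutator subgroup of `M` trivially.

* (2) Let `G = A *_E B` with `A` and `B` in `C`, `E ≤ M ≤ B`. Suppose that `E` and `b E b⁻¹` have at most `n`
  common elements for the elements `b` of `B` which are not in `M`, and that `E` is visible in `M`.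
  Then `G` is in `C`. For `E = M` this is the known case of an acylindrical action; here `E` may have
  infinite index in `M`, and the action on the tree is not acylindrical, as `E` may be normal in `M`, and
  nothing is known about the embedding of `E` in `A`.
* (3) Let `G` be the HNN extension of a group `H` in `C` along an isomorphism of subgroups `A → B`, `B ≤ M`.
  Suppose that `B` has at most `n` elements in common with the conjugates of `A`, and with `h B h⁻¹` for the
  elements `h` of `H` which are not in `M`, and that `B` is visible in `M`. Then `G` is in `C`.
* (1) The general theorem on groups acting on trees. There is an invariant equivalence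
  relation `r v` on the neighbours of each vertex `v` (`LR G T r`) such that for inequivalent neighbours
  `a`, `b` of `v` the group `G_v ∩ G_a ∩ G_b` has at most `n` elements. The ends of the
  edges have levels (`Levels G T r l`) `l v a` (the end `v` of the edge from `v` to `a`), which are invariant, and equal
  for equivalent edges at `v`; the levels of the two ends of an edge are different. At the upper
  ends (`l a v < l v a`) equivalent edges are in one orbit, and the edge group is visible in the
  group `M` of the elements `g` of `G_v` such that `g a` is equivalent to `a`. There is no condition at the
  lower ends.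
* (4) Let `R` be an integral domain and `B` a group in `C` which embeds in `SL₂(R)` such that the elements of
  `B` that are upper triangular matrices have equal diagonal entries. (All subgroups of `SL₂(R)` have this
  property if `1` and `-1` are the only units of `R`, for instance for the rings `ℤ[x₁, …, xₙ]`; another
  example is a discrete torsion-free subgroup of `SL₂(ℂ)` which contains a parabolic element that fixes
  the point `∞`, e.g. the fundamental group of a hyperbolic 3-manifold with a cusp.) Let `E` be any
  group of upper triangular matrices in `B`. Then `A *_E B` is in `C` for each group `A` in `C`, and for each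
  embedding of `E` in `A`.

Outline of the proof. By `AcylF`, for (1) one has to treat the stabilizers of the cylinders (the
classes of edges generated by the relations `r v`). The stabilizer `K` of a cylinder acts on a
subtree, and all edges of the cylinder at a vertex have the same level. Cut this subtree at
the vertices of maximal level: `K` acts on the tree of the components and these vertices, and the
stabilizers of the components are in `C` by induction. For this action there is the gluing lemma for
homomorphisms on trees (`U709.Gl.hubs`), because the visible edge groups are normal modulo the
kernel of `f`, and their centralizers act trivially on them. Unbounded levels are treated by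
directed unions. For (4): `M` is the group of the triangular matrices in `B`, it is abelian, and
the lower left entry of `b⁻¹ e b` is `- c² x` if `e` has the entry `x` in the upper right corner and `b` has
the entry `c` in the lower left corner; so `E ∩ b E b⁻¹ ≤ {1, -1}` for `c ≠ 0`.
-/

set_option autoImplicit false

namespace Pool.Agent.Results.MP_c052b4_al.RelativelyMalnormalEdges

open Subgroup
open Pool.Agent.Y110.FJ (ClosedE)
open Pool.Agent.N509.TX (AcylF)
open Pool.Agent.N509.TK (LR)
open Pool.Agent.N431.CE (Es)
open Pool.Agent.Helper705_SA (IsAmalgam)
open Pool.Agent.U709.Rm (GenVis AtMost RelMal Levels)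

theorem result (C : ∀ (G : Type) [Group G], Prop) (hC : ClosedE C) (hA : AcylF C) :
    (∀ (G V : Type) [Group G] [MulAction G V] (T : SimpleGraph V), T.IsTree →
      (∀ (g : G) (u v : V), T.Adj u v → T.Adj (g • u) (g • v)) →
      (∀ v : V, C ↥(MulAction.stabilizer G v)) →
      ∀ r : V → V → V → Prop, LR G T r →
      ∀ n : ℕ, (∀ v a b, T.Adj v a → T.Adj v b → ¬ r v a b →
        AtMost n {g : G | g • v = v ∧ g • a = a ∧ g • b = b}) →
      ∀ l : V → V → ℕ, Levels G T r l →
      (∀ v a, T.Adj v a → l a v < l v a → ∀ M : Subgroup G,
        (∀ g, g ∈ M ↔ g • v = v ∧ r v a (g • a)) → GenVis C (Es G v a) M) → C G) ∧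
    (∀ (G : Type) [Group G] (A B : Subgroup G), IsAmalgam A B → C A → C B →
      ∀ (n : ℕ) (M : Subgroup G), RelMal n (A ⊓ B) M B → GenVis C (A ⊓ B) M → C G) ∧
    (∀ (H : Type) [Group H] (A B : Subgroup H) (φ : A ≃* B), C H →
      ∀ (n : ℕ) (M : Subgroup H), RelMal n B M ⊤ →
      (∀ h : H, AtMost n {g | g ∈ B ∧ h⁻¹ * g * h ∈ A}) →
      GenVis C B M → C (HNNExtension H A B φ)) ∧
    (∀ (G : Type) [Group G] (A B : Subgroup G), IsAmalgam A B → C A → C B →
      ∀ (R : Type) [CommRing R] [IsDomain R] (ρ : B →* Matrix.SpecialLinearGroup (Fin 2) R),
      Function.Injective ρ → (∀ b, (ρ b) 1 0 = 0 → (ρ b) 0 0 = (ρ b) 1 1) →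
      (∀ b : B, (b : G) ∈ A → (ρ b) 1 0 = 0) → C G) :=
  ⟨fun _ _ _ _ _ hT hact hV _ hr _ hi _ hl h =>
      Pool.Agent.U709.Rm.lev_tree hC hA hT hact hV hr hi hl h,
    fun _ _ _ _ h hcA hcB _ _ h1 h2 => Pool.Agent.U709.Rm.rel_amalgam hC hA h hcA hcB h1 h2,
    fun _ _ _ _ φ hH _ _ h1 h2 h3 => Pool.Agent.U709.Rm.rel_hnn hC hA φ hH h1 h2 h3,
    fun _ _ A B h hcA hcB _ _ _ ρ h1 h2 h3 =>
      Pool.Agent.U709.Rm.rm_sl hC hA A B h hcA hcB ρ h1 h2 h3⟩

end Pool.Agent.Results.MP_c052b4_al.RelativelyMalnormalEdges
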