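import Pool.Agent.U863.SG.Chain

/-!
# Countable Farrell–Jones groups embed in simple acyclic Farrell–Jones groups

`C` is any class of groups with the closure properties `ClosedE C` (it contains `ℤ`, it is closed
under subgroups, finite products, free products, overgroups of finite index and directed colimits, and
it satisfies the extension criterion) and `AcylF C` (it contains the finitely generated groups which
act acylindrically on trees with vertex stabilizers in `C`). Both are known for the class of the groups
whose wreath products with finite groups satisfy the K-theoretic (or L-theoretic) Farrell–Jones
conjecture with coefficients; `AcylF` is a theorem of Knopf. For torsion-free groups in the class and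
regular rings the assembly map of the problem is an isomorphism.

Theorem. Every sequence of countable groups in `C` embeds in one countable group `S` in `C` such that
* for all `x ≠ 1` in `S`, every element of `S` is a product of eight conjugates of `x`; in
  particular `S` is simple;
* `S` is pseudo-mitotic: for every finitely generated subgroup `A` there are a homomorphism
  `φ : A → S` with image commuting with `A` and an element `u` with `u φ(a) u⁻¹ = a φ(a)` for all `a` in
  `A`; pseudo-mitotic groups are acyclic (Varadarajan, Berrick);
* `S` is torsion-free if all groups of the sequence are.

So there is one countable torsion-free simple acyclic group `S` which contains all finitely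
presented torsion-free Farrell–Jones groups, and for which `K_n(R) → K_n(RS)` is an isomorphism for all
regular rings `R` and all `n`. That countable groups embed in simple groups and in acyclic groups is
well known (Higman, Neumann and Neumann; Baumslag, Dyer and Heller); the usual constructions take
HNN extensions with large associated subgroups, for which no inheritance property is known.

Outline of the proof. Let `K` be a countable group in `C`, `x ≠ 1` and `h` in `K`, `h` of infinite
order. In the free product of `K` with `⟨t⟩` consider `w = t x t⁻² x t³ x t⁻² x`, a product of four
conjugates of `x`. It acts as a translation on the Bass–Serre tree, and the heights of the vertices on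
its axis are `0, 1, 0, -1, 0, 1, 2, 1`, repeated. No reflection and no other translation than by
multiples of `8` preserves this sequence up to a constant, and edge stabilizers are trivial, so the
cyclic group `⟨w⟩` is malnormal. It follows that in the Bass–Serre tree of the HNN extension with a
letter which conjugates `w` to `h` the paths of length three have trivial stabilizers. Hence the HNN
extension is in `C`, and `h` is a product of four conjugates of `x` in it. If `h` has finite order, then
write it as a product of two elements of infinite order of `K * ℤ`. Doing this for all pairs of elements
gives a countable group `K'` in `C` which contains `K`. Then embed `K'` in the group `Ev K'` of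
the pairs of a function `ℤ → K'` which is `1` near `-∞` and constant near `+∞` and a translation of
`ℤ`, by functions supported at `0`; here `φ(a)` is the function with value `a` at the positive integers.
The group `Ev K'` is in `C` since its elements with finite support form a normal subgroup with
quotient in `K' × ℤ` (realization criterion). The group `S` is the union of the sequence
`K, Ev K', Ev (Ev K')', ...`.
-/

set_option autoImplicit false

namespace Pool.Agent.Results.MP_c052b4_al.SimpleGroups

open Pool.Agent.Y110.FJ (ClosedE)
open Pool.Agent.N509.TX (AcylF)
open Pool.Agent.U863.SG
open scoped Pointwise

theorem result (C : ∀ (G : Type) [Group G], Prop) (hC : ClosedE C) (hA : AcylF C)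
    (H : ℕ → Type) [∀ i, Group (H i)] (hH : ∀ i, Countable (H i) ∧ C (H i)) :
    ∃ (S : Type) (_ : Group S), C S ∧ Countable S ∧ IsSimpleGroup S ∧
      (∀ i, ∃ j : H i →* S, Function.Injective j) ∧
      (∀ x y : S, x ≠ 1 → y ∈ conjugatesOf x ^ 8) ∧ PseudoMitotic S ∧
      ((∀ (i : ℕ) (h : H i), IsOfFinOrder h → h = 1) → ∀ s : S, IsOfFinOrder s → s = 1) :=
  simple_family hC hA H (fun i => (hH i).1) (fun i => (hH i).2)

end Pool.Agent.Results.MP_c052b4_al.SimpleGroups
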