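import Pool.Agent.U74.LN.Unit

/-!
# Graphs of linear groups along unit groups of number fields, and the Farrell-Jones conjecture

`C` is a class of groups with the closure properties `ClosedE C`, which contains the metabelian groups and
satisfies `AcylF C` (finitely generated groups with an acylindrical action on a tree with stabilizers in
`C` are in `C`). All this is known for the class of the groups whose wreath products with finite groups
satisfy the K-theoretic and L-theoretic Farrell-Jones conjecture with coefficients (Bartels, Lück, Reich,
Wegner, Knopf); this class also contains `GL_m(F)` for all `m` and all number fields `F` (Rüping). For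
torsion-free groups it gives the conjecture for regular rings.

* (1) Let `G` act on a tree. Let all quotients `N ⧸ R` of subgroups of the vertex stabilizers by virtually
  solvable normal subgroups be in `C` (`SQ C`; this holds for linear groups over such fields, see (4)). Let
  the infinite edge stabilizers `E` be virtually solvable, and suppose: two edge stabilizers at a vertex are
  commensurable or have a finite intersection, of order at most `N(e)` for the edges at the vertex
  different from `e`; and every finitely generated subgroup of the commensurator of `E` in
  `G` normalizes a subgroup of finite index of `E` (`LNorm`). Then `G` is in `C`. For infinite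
  cyclic edge groups the last condition says that the action is balanced.
* (2) Let `G` act on a tree such that the vertex stabilizer `G_v` is a group of `n × n` matrices over
  a field `F` with all `GL_m(F)` in `C`, with only finitely many scalar matrices (`F` and `n`
  depend on `v`), and for every edge `e` at `v` the stabilizer `G_e` has order at most `N(v)`, or is the
  intersection of `G_v` with a subfield `K` of the matrix algebra, of prime degree over `F` (`K` depends on
  `e` and on `v`). Then `G` is in `C`. Here no condition like malnormality is needed.
* (3) The finiteness of the number of scalar matrices is automatic for the groups of matrices with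
  `det ^ k = 1`, e.g. for the subgroups of `SL_n(F)` and of `GL_n(ℤ)`.
* (4) `SQ C` holds for linear groups over `F` if all `GL_m(F)` are in `C`, and it is inherited
  by subgroups and by quotients by virtually solvable normal subgroups.

For example let `Γ` be a subgroup of `GL_n(ℤ)`, let `K` be a subfield of prime degree of the matrix algebra
`M_n(ℚ)`, and let `E = Γ ∩ K`, a group of units of the ring of integers. Let `Γ'` and `E'` be
another such pair, and let `E` and `E'` be isomorphic. Then `Γ *_E Γ'` is in `C` for every
isomorphism of `E` and `E'` (which has nothing to do with the fields: it can be any element of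
`GL_r(ℤ)`). If `n` is larger than the degree of `K`, the centralizer of `E` in `GL_n(ℤ)` is a general
linear group over an order of `K`; so the action on the Bass-Serre tree is far from acylindrical, `G` is
not relatively hyperbolic in an obvious way, and the groups `G` are not linear in general.

Outline of the proof. (1) The finitely generated subgroups of the commensurator of `E`, enlarged by a normal
subgroup `R` commensurable to `E`, act on the tree of the points fixed by `R`; modulo `R` the edge stabilizers
are finite (without a bound), and the vertex stabilizers are in `C` because of `SQ C`. Groups with finite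
edge stabilizers are treated by passing to finitely generated subgroups. So the commensurators are in `C`;
then `G` acts acylindrically on the tree of cylinders. (2) Two different subfields of prime degree intersect
in `F`; so two edge stabilizers at a vertex are equal or have a bounded intersection, and the edge stabilizers
in a cylinder are all equal, so that the commensurator of an infinite edge stabilizer normalizes it.
-/

set_option autoImplicit false

namespace Pool.Agent.Results.MP_c052b4_al.UnitGroupEdges

open Pool.Agent.Y110.FJ (ClosedE)
open Pool.Agent.N509.TX (AcylF)
open Pool.Agent.N431.CE (Es)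
open Pool.Agent.U74.LN (VS SQ LNorm UnitEdges)
open Subgroup

/-- `G` acts on the tree `T` by automorphisms -/
def TreeAction (G : Type) {V : Type} [Group G] [MulAction G V] (T : SimpleGraph V) : Prop :=
  T.IsTree ∧ ∀ (g : G) (u v : V), T.Adj u v → T.Adj (g • u) (g • v)

/-- two edge stabilizers at a vertex are commensurable or have a finite intersection, which is bounded if
one of the edges is fixed -/
def Isolated (G : Type) {V : Type} [Group G] [MulAction G V] (T : SimpleGraph V) : Prop :=
  ∀ v a, T.Adj v a → ∃ N : ℕ, ∀ b, T.Adj v b → b ≠ a →
    Subgroup.Commensurable (Es G v a) (Es G v b) ∨
      (Finite ↥(Es G v a ⊓ Es G v b) ∧ Nat.card ↥(Es G v a ⊓ Es G v b) ≤ N)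

/-- Let `C` be a class of groups with `ClosedE C` and `AcylF C` which contains the metabelian groups.
(1) Groups which act on trees with vertex stabilizers in `SQ C` and isolated virtually solvable edge
stabilizers which are locally normalized by their commensurators are in `C`. (2) Groups which act on trees
such that the vertex stabilizers are matrix groups (with finitely many scalar matrices) and the edge
stabilizers are the intersections with subfields of prime degree, are in `C`. (3) There are finitely many
scalar matrices if the determinants are `k`-th roots of unity. (4) Linear groups are in `SQ C`, and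
`SQ C` is inherited by subgroups and quotients by virtually solvable normal subgroups. -/
theorem result (C : ∀ (G : Type) [Group G], Prop) (hC : ClosedE C)
    (hM : ∀ (G : Type) [Group G], derivedSeries G 2 = ⊥ → C G) (hA : AcylF C) :
    (∀ (G V : Type) [Group G] [MulAction G V] (T : SimpleGraph V), TreeAction G T →
      (∀ v : V, SQ C (MulAction.stabilizer G v)) →
      (∀ v u : V, T.Adj v u → Infinite (Es G v u) → VS (Es G v u) ∧ LNorm (Es G v u)) →
      Isolated G T → C G) ∧
    (∀ (G V : Type) [Group G] [MulAction G V] (T : SimpleGraph V), TreeAction G T →
      UnitEdges C G T → C G) ∧
    (∀ (A F : Type) [Group A] [Field F] (n : ℕ) (ρ : A →* Matrix.GeneralLinearGroup (Fin n) F),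
      Function.Injective ρ → (∃ k : ℕ, k ≠ 0 ∧ ∀ g, (ρ g : Matrix (Fin n) (Fin n) F).det ^ k = 1) →
      {g | ∃ c : F, (ρ g : Matrix (Fin n) (Fin n) F) = c • 1}.Finite) ∧
    (∀ (A F : Type) [Group A] [Field F] (n : ℕ) (ρ : A →* Matrix.GeneralLinearGroup (Fin n) F),
      Function.Injective ρ → (∀ m : ℕ, C (Matrix.GeneralLinearGroup (Fin m) F)) → SQ C A) ∧
    (∀ (A B : Type) [Group A] [Group B] (φ : A →* B), Function.Injective φ → SQ C B → SQ C A) ∧
    (∀ (A : Type) [Group A] (R : Subgroup A) [R.Normal], VS R → SQ C A → SQ C (A ⧸ R)) := by
  refine ⟨fun G V _ _ T hT hV hE hI => ?_, fun G V _ _ T hT h => ?_,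
    fun A F _ _ n ρ hρ ⟨k, hk, hdet⟩ => Pool.Agent.U74.LN.fin_scalar ρ hρ k hk hdet,
    fun A F _ _ n ρ hρ hF => Pool.Agent.U74.LN.lin_sq hC hM ⟨F, inferInstance, n, ρ, hρ, hF⟩,
    fun A B _ _ φ hφ h => h.of_injective hC φ hφ, fun A _ R _ hR h => h.quotient hC R hR⟩
  · exact Pool.Agent.U74.LN.LAct.main hC hM hA (T := T)
      ⟨hT.1, hT.2, hV, fun u v h1 h2 => (hE u v h1 h2).1, hI, fun u v h1 h2 => (hE u v h1 h2).2⟩
  · exact (Pool.Agent.U74.LN.unit_act hC hM hT.1 hT.2 h).main hC hM hA

end Pool.Agent.Results.MP_c052b4_al.UnitGroupEdges
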